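import Pool.Agent.Lib.MP_a55298_gt.Stable

set_option autoImplicit false

namespace Pool.Agent.Results.MP_a55298_gt.NoUniversal

open Pool.Agent.Lib.MP_a55298_gt

universe u

/-- **Full negative answer to Q1.**  The `C_k`-stable closure of the class of separable metrizable
spaces has no universal space. -/
theorem result :
    ¬ ∃ (U : Type u) (_ : TopologicalSpace U), IsUniversalIn (CkClosure SepMetr.{u}) U :=
  no_universal

end Pool.Agent.Results.MP_a55298_gt.NoUniversal
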